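import Mathlib
import Pool.Agent.W345.VO.Stm

/-!
The vertex operators of equal sign commute.
-/

namespace Pool.Agent.W978.VO

open Pool.Agent.W345.VO MvPolynomial

theorem hom_sub {d : ℤ} {p q : PP} (hp : hom d p) (hq : hom d q) : hom d (p - q) := by
  rcases hp with ⟨hd, hp⟩ | hp
  · rcases hq with ⟨_, hq⟩ | hq
    · left
      refine ⟨hd, ?_⟩
      rw [← mem_weightedHomogeneousSubmodule] at hp hq ⊢
      exact Submodule.sub_mem _ hp hq
    · rw [hq, sub_zero]
      exact Or.inl ⟨hd, hp⟩
  · rcases hq with ⟨hd, hq⟩ | hq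
    · left
      refine ⟨hd, ?_⟩
      rw [hp, zero_sub]
      rw [← mem_weightedHomogeneousSubmodule] at hq ⊢
      exact Submodule.neg_mem _ hq
    · right
      rw [hp, hq, sub_zero]

theorem homV_sub {k d : ℤ} {v w : VV} (hv : HomV k d v) (hw : HomV k d w) : HomV k d (v - w) := by
  obtain ⟨p, rfl, hp⟩ := hv
  obtain ⟨q, rfl, hq⟩ := hw
  exact ⟨p - q, by rw [Finsupp.single_sub], hom_sub hp hq⟩

theorem eec : S_HE → S_BAS → S_HOM → S_IND → S_CON → S_EEC := by
  intro hHE hBAS hHOM hIND hCON ε hε m n v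
  have hεε : ε * ε = 1 := by
    rcases hε with h | h <;> rw [h] <;> norm_num
  have hεC : (ε : ℂ) = 1 ∨ (ε : ℂ) = -1 := by
    rcases hε with h | h
    · left; rw [h]; norm_num
    · right; rw [h]; norm_num
  have hdeg : ∀ m n k : ℤ, HomV (k + (ε + ε)) ((-4 - 4 * ε * k) - m - n) (EE ε m (EE ε n (ee k))) := by
    intro m n k
    have h1 := hHOM.2.2.1 ε k 0 n (ee k) (hHOM.1 k)
    have h2 := hHOM.2.2.1 ε _ _ m _ h1
    have e1 : k + ε + ε = k + (ε + ε) := by ring
    have e2 : 0 - n - 1 - 2 * ε * k - m - 1 - 2 * ε * (k + ε) = (-4 - 4 * ε * k) - m - n := by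
      linear_combination (-2) * hεε
    rw [e1, e2] at h2
    exact h2
  have hval : ∀ m n k : ℤ, m + n = -4 - 4 * ε * k → EE ε m (EE ε n (ee k)) =
      Finsupp.single (k + (ε + ε)) (C (if (-n - 1 - 2 * ε * k) = 0 ∨ (-n - 1 - 2 * ε * k) = 2 then 1
        else if (-n - 1 - 2 * ε * k) = 1 then -2 else 0) : PP) := by
    intro m n k hmn
    rw [hBAS.1 ε n k, EE_single]
    have e1 : k + ε + ε = k + (ε + ε) := by ring
    have e2 : -m - 1 - 2 * ε * (k + ε) = -(-n - 1 - 2 * ε * k) := by
      linear_combination (-2) * hεε - hmn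
    rw [e1, e2, hCON.1 (ε : ℂ) hεC (-n - 1 - 2 * ε * k)]
  have key := hIND (ε + ε) (fun k => -4 - 4 * ε * k) (2 * (ε : ℂ)) (2 * (ε : ℂ))
    (fun m n => EE ε m * EE ε n - EE ε n * EE ε m) (by
      intro l m n v
      simp only [LinearMap.sub_apply, Module.End.mul_apply, map_sub]
      have a1 : ∀ (n : ℤ) (v : VV), hOp l (EE ε n v) = EE ε n (hOp l v) + (2 * (ε : ℂ)) • EE ε (l + n) v := by
        intro n v
        rw [← hHE ε hε l n v]
        abel
      rw [a1 m (EE ε n v), a1 n v, a1 n (EE ε m v), a1 m v]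
      simp only [map_add, map_smul]
      rw [add_comm l m, add_comm l n]
      module) (by
      intro m n k
      simp only [LinearMap.sub_apply, Module.End.mul_apply]
      have h2 := hdeg n m k
      have e : (-4 - 4 * ε * k) - n - m = (-4 - 4 * ε * k) - m - n := by ring
      rw [e] at h2
      exact homV_sub (hdeg m n k) h2) (by
      intro m n k hmn
      simp only [LinearMap.sub_apply, Module.End.mul_apply]
      rw [hval m n k hmn, hval n m k (by rw [add_comm]; exact hmn), sub_eq_zero]
      congr 2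
      have hmn' : m + n = -4 - 4 * ε * k := hmn
      set t := 4 * ε * k with ht
      have ht2 : 2 * ε * k + 2 * ε * k = t := by rw [ht]; ring
      set s := 2 * ε * k with hs
      by_cases h0 : -n - 1 - s = 0
      · have h1 : -m - 1 - s = 2 := by omega
        simp [h0, h1]
      · by_cases h2 : -n - 1 - s = 2
        · have h1 : -m - 1 - s = 0 := by omega
          simp [h2, h1]
        · by_cases h3 : -n - 1 - s = 1
          · have h1 : -m - 1 - s = 1 := by omega
            simp [h3, h1]
          · have h4 : -m - 1 - s ≠ 2 := by omega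
            have h5 : -m - 1 - s ≠ 0 := by omega
            have h6 : -m - 1 - s ≠ 1 := by omega
            simp [h0, h2, h3, h4, h5, h6]) m n v
  simp only [LinearMap.sub_apply, Module.End.mul_apply] at key
  exact sub_eq_zero.1 key

end Pool.Agent.W978.VO
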